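import Pool.Agent.Helper46_BEB.RefB
import Pool.Agent.Helper39_BEB.WEX

/-!
# Squad BEB, row REF: from the half ball to the ball by odd reflection
-/

set_option autoImplicit false

namespace Pool.Agent.BEB.H46

open Set Filter Topology MeasureTheory
open scoped InnerProductSpace ENNReal
open Pool.Agent.BE01 Pool.Agent.BEB

noncomputable section

/-- the nonlinearity -/
def nl (α t : ℝ) : ℝ := |t| ^ α * t

theorem nl_neg (α t : ℝ) : nl α (-t) = - nl α t := by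
  unfold nl
  rw [abs_neg]
  ring

theorem nl_zero (α : ℝ) : nl α 0 = 0 := by
  unfold nl
  rw [mul_zero]

theorem ae_HB (R : ℝ) {p : En 3 → Prop} (h : ∀ᵐ x ∂(mu (HB R)), p x) :
    ∀ᵐ x ∂(mu (Bl R)), x ∈ HB R → p x := by
  rw [← res_HB] at h
  exact (ae_restrict_iff' (meas_HB R)).mp h

theorem not_both {R : ℝ} {x : En 3} (h1 : x ∈ HB R) (h2 : sg x ∈ HB R) : False := by
  have h3 := h1.2
  have h4 := h2.2
  rw [sg_two] at h4
  linarith

theorem X_bdd (R : ℝ) (f : Lp ℝ 2 (mu (HB R))) (h : ∃ C, ∀ᵐ x ∂(mu (HB R)), |f x| ≤ C) :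
    ∃ C, ∀ᵐ x ∂(mu (Bl R)), |X0 R f x| ≤ C := by
  obtain ⟨C, hC⟩ := h
  refine ⟨max C 0 + max C 0, ?_⟩
  have h1 : ∀ᵐ x ∂(mu (Bl R)), |(HB R).indicator f x| ≤ max C 0 := by
    filter_upwards [ae_HB R hC] with x hx
    by_cases hxH : x ∈ HB R
    · rw [indicator_of_mem hxH]
      exact (hx hxH).trans (le_max_left _ _)
    · rw [indicator_of_notMem hxH, abs_zero]
      exact le_max_right _ _
  filter_upwards [X_ae R (ContinuousLinearMap.id ℝ ℝ) f, h1,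
    (mp_sg R).quasiMeasurePreserving.ae h1] with x h2 h3 h4
  rw [h2]
  exact (abs_sub _ _).trans (add_le_add h3 h4)

theorem X_nl (R α : ℝ) (f q : Lp ℝ 2 (mu (HB R)))
    (hq : q =ᵐ[mu (HB R)] fun x => nl α (f x)) :
    (fun x => nl α (X0 R f x)) =ᵐ[mu (Bl R)] X0 R q := by
  have h0 := ind_ae R hq
  filter_upwards [X_ae R (ContinuousLinearMap.id ℝ ℝ) f,
    X_ae R (ContinuousLinearMap.id ℝ ℝ) q, h0,
    (mp_sg R).quasiMeasurePreserving.ae_eq_comp h0] with x h2 h3 h4 h5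
  rw [Function.comp_apply, Function.comp_apply] at h5
  rw [h2, h3, h4, h5]
  simp only [ContinuousLinearMap.id_apply]
  by_cases hx : x ∈ HB R
  · by_cases hs : sg x ∈ HB R
    · exact (not_both hx hs).elim
    · rw [indicator_of_mem hx, indicator_of_mem hx, indicator_of_notMem hs,
        indicator_of_notMem hs, sub_zero, sub_zero]
  · by_cases hs : sg x ∈ HB R
    · rw [indicator_of_mem hs, indicator_of_mem hs, indicator_of_notMem hx,
        indicator_of_notMem hx, zero_sub, zero_sub, nl_neg]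
    · rw [indicator_of_notMem hs, indicator_of_notMem hs, indicator_of_notMem hx,
        indicator_of_notMem hx, sub_zero, nl_zero]

theorem cof_od (R : ℝ) (hR : 0 < R) (ψ : En 3 → ℝ) (hψ : Tst (Bl R) ψ) :
    ∃ C : ℝ, ∀ x ∈ HB R, |od ψ x| ≤ C * (R ^ 2 - ‖x‖ ^ 2) ∧ |od ψ x| ≤ C * x 2 := by
  obtain ⟨K, hK⟩ := hψ.1.lipschitzWith_of_hasCompactSupport hψ.2.1 (by simp)
  have hK' : ∀ x y, |ψ x - ψ y| ≤ K * ‖x - y‖ := by
    intro x y
    have := hK.dist_le_mul x y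
    rwa [Real.dist_eq, dist_eq_norm] at this
  have hK0 : (0 : ℝ) ≤ K := K.2
  -- near the sphere
  have h1 : ∀ x : En 3, ‖x‖ < R → |ψ x| ≤ K * (R - ‖x‖) := by
    intro x hx
    obtain ⟨x', h2, h3⟩ : ∃ x' : En 3, ‖x'‖ = R ∧ ‖x - x'‖ = R - ‖x‖ := by
      by_cases h0 : x = 0
      · refine ⟨EuclideanSpace.single 0 R, ?_, ?_⟩
        · rw [PiLp.norm_single, Real.norm_eq_abs, abs_of_pos hR]
        · rw [h0, zero_sub, norm_neg, norm_zero, sub_zero, PiLp.norm_single, Real.norm_eq_abs,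
            abs_of_pos hR]
      · have hx0 : 0 < ‖x‖ := norm_pos_iff.mpr h0
        refine ⟨(R / ‖x‖) • x, ?_, ?_⟩
        · rw [norm_smul, Real.norm_eq_abs, abs_of_pos (by positivity)]
          field_simp
        · have h4 : x - (R / ‖x‖) • x = (1 - R / ‖x‖) • x := by
            rw [sub_smul, one_smul]
          have h5 : 1 ≤ R / ‖x‖ := by
            rw [le_div_iff₀ hx0]
            linarith
          rw [h4, norm_smul, Real.norm_eq_abs, abs_of_nonpos (by linarith)]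
          field_simp
          ring
    have h4 : ψ x' = 0 := by
      apply image_eq_zero_of_notMem_tsupport
      intro h5
      have h6 := hψ.2.2 h5
      rw [Metric.mem_ball, dist_zero_right] at h6
      linarith
    have h5 := hK' x x'
    rw [h4, sub_zero, h3] at h5
    exact h5
  refine ⟨2 * K / R + 2 * K, ?_⟩
  intro x hx
  have hx1 : ‖x‖ < R := hx.1
  have hx2 : 0 < x 2 := hx.2
  have hn : 0 ≤ ‖x‖ := norm_nonneg x
  constructor
  · have h2 := h1 x hx1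
    have h3 := h1 (sg x) (by rwa [LinearIsometryEquiv.norm_map])
    rw [LinearIsometryEquiv.norm_map] at h3
    have h4 : |od ψ x| ≤ 2 * K * (R - ‖x‖) := by
      unfold od
      refine (abs_sub _ _).trans ?_
      linarith
    have h5 : R - ‖x‖ ≤ (R ^ 2 - ‖x‖ ^ 2) / R := by
      rw [le_div_iff₀ hR]
      nlinarith
    have h6 : 0 ≤ R ^ 2 - ‖x‖ ^ 2 := by nlinarith
    calc |od ψ x| ≤ 2 * K * (R - ‖x‖) := h4
      _ ≤ 2 * K * ((R ^ 2 - ‖x‖ ^ 2) / R) := by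
          apply mul_le_mul_of_nonneg_left h5
          positivity
      _ ≤ (2 * K / R + 2 * K) * (R ^ 2 - ‖x‖ ^ 2) := by
          have h7 : 2 * K * ((R ^ 2 - ‖x‖ ^ 2) / R) = 2 * K / R * (R ^ 2 - ‖x‖ ^ 2) := by
            ring
          rw [h7, add_mul]
          have : 0 ≤ 2 * (K : ℝ) * (R ^ 2 - ‖x‖ ^ 2) := by positivity
          linarith
  · have h2 := hK' x (sg x)
    rw [norm_sub_sg, abs_of_pos hx2] at h2
    have h3 : |od ψ x| ≤ 2 * K * x 2 := by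
      unfold od
      linarith
    have h4 : 0 ≤ 2 * K / R * x 2 := by positivity
    calc |od ψ x| ≤ 2 * K * x 2 := h3
      _ ≤ (2 * K / R + 2 * K) * x 2 := by
          rw [add_mul]
          linarith

theorem ae_of_Bl (R : ℝ) {p : En 3 → Prop} (h : ∀ᵐ x ∂(mu (Bl R)), p x) :
    ∀ᵐ x ∂(mu (HB R)), p x := by
  rw [← res_HB]
  exact ae_restrict_of_ae h

theorem grad_cont (ψ : En 3 → ℝ) (h : ContDiff ℝ ((⊤ : ℕ∞) : WithTop ℕ∞) ψ) :
    Continuous (gradient ψ) := by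
  have h1 : Continuous (fderiv ℝ ψ) := h.continuous_fderiv (by simp)
  exact (InnerProductSpace.toDual ℝ (En 3)).symm.continuous.comp h1

theorem grad_supp (ψ : En 3 → ℝ) (h : HasCompactSupport ψ) :
    HasCompactSupport (gradient ψ) := by
  have h1 : HasCompactSupport (fderiv ℝ ψ) := h.fderiv ℝ
  exact h1.comp_left (g := (InnerProductSpace.toDual ℝ (En 3)).symm) (map_zero _)

theorem mem0 {Ω : Set (En 3)} (Ω' : Set (En 3)) (ψ : En 3 → ℝ) (h : Tst Ω ψ) :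
    MemLp ψ 2 (mu Ω') := by
  unfold mu
  exact h.1.continuous.memLp_of_hasCompactSupport h.2.1

theorem mem1 {Ω : Set (En 3)} (Ω' : Set (En 3)) (ψ : En 3 → ℝ) (h : Tst Ω ψ) :
    MemLp (gradient ψ) 2 (mu Ω') := by
  unfold mu
  exact (grad_cont ψ h.1).memLp_of_hasCompactSupport (grad_supp ψ h.2.1)

theorem int0 {μ : Measure (En 3)} (f : Lp ℝ 2 μ) (ψ : En 3 → ℝ) (h : MemLp ψ 2 μ) :
    Integrable (fun x => f x * ψ x) μ := by
  refine (L2.integrable_inner (𝕜 := ℝ) f (h.toLp ψ)).congr ?_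
  filter_upwards [MemLp.coeFn_toLp h] with x hx
  rw [hx]
  simp only [RCLike.inner_apply, conj_trivial]
  ring

theorem int1 {μ : Measure (En 3)} (G : Lp (En 3) 2 μ) (Φ : En 3 → En 3) (h : MemLp Φ 2 μ) :
    Integrable (fun x => ⟪G x, Φ x⟫_ℝ) μ := by
  refine (L2.integrable_inner (𝕜 := ℝ) G (h.toLp Φ)).congr ?_
  filter_upwards [MemLp.coeFn_toLp h] with x hx
  rw [hx]

theorem split {μ : Measure (En 3)} (a α : ℝ) (w v q : Lp ℝ 2 μ) (G : Lp (En 3) 2 μ)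
    (φ : En 3 → ℝ) (Φ : En 3 → En 3) (h0 : MemLp φ 2 μ) (h1 : MemLp Φ 2 μ)
    (hq : (fun x => nl α (v x)) =ᵐ[μ] q) :
    ∫ x, w x * φ x + ⟪G x, Φ x⟫_ℝ + a * |v x| ^ α * v x * φ x ∂μ =
      ∫ x, w x * φ x ∂μ + ∫ x, ⟪G x, Φ x⟫_ℝ ∂μ + a * ∫ x, q x * φ x ∂μ := by
  have e1 : ∫ x, w x * φ x + ⟪G x, Φ x⟫_ℝ + a * |v x| ^ α * v x * φ x ∂μ =
      ∫ x, (w x * φ x + ⟪G x, Φ x⟫_ℝ) + a * (q x * φ x) ∂μ := by
    refine integral_congr_ae ?_
    filter_upwards [hq] with x hx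
    rw [← hx]
    unfold nl
    ring
  have i1 : Integrable (fun x => w x * φ x + ⟪G x, Φ x⟫_ℝ) μ := (int0 w φ h0).add (int1 G Φ h1)
  have i2 : Integrable (fun x => a * (q x * φ x)) μ := (int0 q φ h0).const_mul a
  rw [e1, integral_add i1 i2, integral_add (int0 w φ h0) (int1 G Φ h1), integral_const_mul]

theorem adj0 (R : ℝ) (f : Lp ℝ 2 (mu (HB R))) (ψ : En 3 → ℝ) (h : MemLp ψ 2 (mu (Bl R))) :
    ∫ x, X0 R f x * ψ x ∂(mu (Bl R)) = ∫ x, f x * od ψ x ∂(mu (HB R)) := by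
  have h1 := X_adj R (ContinuousLinearMap.id ℝ ℝ) (fun a b => rfl) f (h.toLp ψ)
  have h2 := MemLp.coeFn_toLp h
  have e1 : ∫ x, X0 R f x * ψ x ∂(mu (Bl R)) =
      ∫ x, ⟪X R (ContinuousLinearMap.id ℝ ℝ) f x, (h.toLp ψ) x⟫_ℝ ∂(mu (Bl R)) := by
    refine integral_congr_ae ?_
    filter_upwards [h2] with x hx
    rw [hx]
    simp only [RCLike.inner_apply, conj_trivial]
    ring
  rw [e1, h1]
  refine integral_congr_ae ?_
  filter_upwards [ae_of_Bl R h2,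
    ae_of_Bl R ((mp_sg R).quasiMeasurePreserving.ae_eq_comp h2)] with x hx hy
  rw [Function.comp_apply, Function.comp_apply] at hy
  rw [hx, hy]
  simp only [RCLike.inner_apply, conj_trivial, ContinuousLinearMap.id_apply, od]
  ring

theorem adj1 (R : ℝ) (G : Lp (En 3) 2 (mu (HB R))) (Φ : En 3 → En 3)
    (h : MemLp Φ 2 (mu (Bl R))) :
    ∫ x, ⟪X1 R G x, Φ x⟫_ℝ ∂(mu (Bl R)) =
      ∫ x, ⟪G x, Φ x - sg (Φ (sg x))⟫_ℝ ∂(mu (HB R)) := by
  have h1 := X_adj R SG (fun a b => sg_inner a b) G (h.toLp Φ)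
  have h2 := MemLp.coeFn_toLp h
  have e1 : ∫ x, ⟪X1 R G x, Φ x⟫_ℝ ∂(mu (Bl R)) =
      ∫ x, ⟪X R SG G x, (h.toLp Φ) x⟫_ℝ ∂(mu (Bl R)) := by
    refine integral_congr_ae ?_
    filter_upwards [h2] with x hx
    rw [hx]
  rw [e1, h1]
  refine integral_congr_ae ?_
  filter_upwards [ae_of_Bl R h2,
    ae_of_Bl R ((mp_sg R).quasiMeasurePreserving.ae_eq_comp h2)] with x hx hy
  rw [Function.comp_apply, Function.comp_apply] at hy
  rw [hx, hy]
  rfl

section nrm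
variable {E : Type} [NormedAddCommGroup E] [InnerProductSpace ℝ E]

theorem nrm_sq {μ : Measure (En 3)} (f : Lp E 2 μ) : ‖f‖ ^ 2 = ∫ x, ‖f x‖ ^ 2 ∂μ := by
  rw [← real_inner_self_eq_norm_sq, L2.inner_def]
  refine integral_congr_ae (Eventually.of_forall fun x => ?_)
  exact real_inner_self_eq_norm_sq _

theorem X_norm (R : ℝ) (T : E →L[ℝ] E) (hT : ∀ a b, ⟪T a, b⟫_ℝ = ⟪a, T b⟫_ℝ)
    (hT2 : ∀ a, T (T a) = a) (f : Lp E 2 (mu (HB R))) : ‖X R T f‖ ^ 2 = 2 * ‖f‖ ^ 2 := by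
  have h1 := X_adj R T hT f (X R T f)
  rw [← real_inner_self_eq_norm_sq, L2.inner_def, h1, nrm_sq, ← integral_const_mul]
  refine integral_congr_ae ?_
  have h2 := X_ae R T f
  have hH : ∀ᵐ x ∂(mu (HB R)), x ∈ HB R := by
    unfold mu
    exact ae_restrict_mem (meas_HB R)
  filter_upwards [ae_of_Bl R h2,
    ae_of_Bl R ((mp_sg R).quasiMeasurePreserving.ae_eq_comp h2), hH] with x hx hy hxH
  rw [Function.comp_apply, Function.comp_apply] at hy
  have hs : sg x ∉ HB R := fun hs => not_both hxH hs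
  rw [hx, hy, sg_sg, indicator_of_mem hxH, indicator_of_notMem hs, map_zero, sub_zero, zero_sub,
    map_neg, hT2, sub_neg_eq_add, inner_add_right, real_inner_self_eq_norm_sq]
  ring

end nrm

theorem en_eq {Ω : Set (En 3)} (v : ℝ → Lp ℝ 2 (mu Ω)) (G : ℝ → Lp (En 3) 2 (mu Ω)) (t : ℝ) :
    energy Ω v G t = ‖v t‖ ^ 2 + ‖G t‖ ^ 2 := by
  unfold energy
  rw [nrm_sq, nrm_sq, ← integral_add]
  · refine integral_congr_ae (Eventually.of_forall fun x => ?_)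
    simp only [Real.norm_eq_abs, sq_abs]
  · exact (Lp.memLp (v t)).integrable_norm_pow (by norm_num)
  · exact (Lp.memLp (G t)).integrable_norm_pow (by norm_num)

theorem en_two (R : ℝ) (v : ℝ → Lp ℝ 2 (mu (HB R))) (G : ℝ → Lp (En 3) 2 (mu (HB R))) (t : ℝ) :
    energy (Bl R) (fun t => X0 R (v t)) (fun t => X1 R (G t)) t = 2 * energy (HB R) v G t := by
  rw [en_eq, en_eq, X_norm R (ContinuousLinearMap.id ℝ ℝ) (fun a b => rfl) (fun a => rfl),
    X_norm R SG (fun a b => sg_inner a b) (fun a => sg_sg a)]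
  ring

theorem fin_HB (R : ℝ) : IsFiniteMeasure (mu (HB R)) := by
  refine ⟨?_⟩
  unfold mu
  rw [Measure.restrict_apply_univ]
  exact lt_of_le_of_lt (measure_mono (HB_sub R)) measure_ball_lt_top

theorem nl_cont (α : ℝ) (hα : 0 < α) : Continuous (nl α) := by
  unfold nl
  exact (continuous_abs.rpow_const (fun _ => Or.inr hα.le)).mul continuous_id

theorem mem_nl (R α : ℝ) (hα : 0 < α) (v : Lp ℝ 2 (mu (HB R)))
    (h : ∃ C, ∀ᵐ x ∂(mu (HB R)), |v x| ≤ C) : MemLp (fun x => nl α (v x)) 2 (mu (HB R)) := by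
  have := fin_HB R
  obtain ⟨C, hC⟩ := h
  refine MemLp.of_bound ((nl_cont α hα).comp_aestronglyMeasurable (Lp.aestronglyMeasurable v))
    (max C 0 ^ α * max C 0) ?_
  filter_upwards [hC] with x hx
  unfold nl
  rw [norm_mul, Real.norm_eq_abs, Real.norm_eq_abs, abs_of_nonneg (Real.rpow_nonneg (abs_nonneg _) _)]
  have h1 : |v x| ≤ max C 0 := hx.trans (le_max_left _ _)
  exact mul_le_mul (Real.rpow_le_rpow (abs_nonneg _) h1 hα.le) h1 (abs_nonneg _)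
    (Real.rpow_nonneg (le_max_right _ _) _)

theorem test_od (cof : CofStmt) (R : ℝ) (hR : 0 < R) (ψ : En 3 → ℝ) (hψ : Tst (Bl R) ψ)
    (W : Lp ℝ 2 (mu (HB R))) (G : Lp (En 3) 2 (mu (HB R)))
    (h : ∀ φ, Tst (HB R) φ →
      ∫ x, ⟪G x, gradient φ x⟫_ℝ ∂(mu (HB R)) = ∫ x, W x * φ x ∂(mu (HB R))) :
    ∫ x, ⟪G x, gradient (od ψ) x⟫_ℝ ∂(mu (HB R)) = ∫ x, W x * od ψ x ∂(mu (HB R)) := by
  obtain ⟨C, hC⟩ := cof_od R hR ψ hψ
  obtain ⟨v, F, hvF, hv, hF⟩ := cof R C (od ψ) hR (tst_od R ψ hψ).1 hC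
  have h1 := Pool.Agent.BEB.H39.wex (HB R) v W G F (dom_HB R hR) h hvF
  have e1 : ∫ x, ⟪G x, F x⟫_ℝ ∂(mu (HB R)) = ∫ x, ⟪G x, gradient (od ψ) x⟫_ℝ ∂(mu (HB R)) := by
    refine integral_congr_ae ?_
    filter_upwards [hF] with x hx
    rw [hx]
  have e2 : ∫ x, W x * v x ∂(mu (HB R)) = ∫ x, W x * od ψ x ∂(mu (HB R)) := by
    refine integral_congr_ae ?_
    filter_upwards [hv] with x hx
    rw [hx]
  rw [← e1, ← e2]
  exact h1

theorem eq_ball (cof : CofStmt) (R a α : ℝ) (hR : 0 < R) (hα : 0 < α)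
    (w v : Lp ℝ 2 (mu (HB R))) (G : Lp (En 3) 2 (mu (HB R)))
    (hv : ∃ C, ∀ᵐ x ∂(mu (HB R)), |v x| ≤ C)
    (h : ∀ φ, Tst (HB R) φ →
      ∫ x, w x * φ x + ⟪G x, gradient φ x⟫_ℝ + a * |v x| ^ α * v x * φ x ∂(mu (HB R)) = 0)
    (ψ : En 3 → ℝ) (hψ : Tst (Bl R) ψ) :
    ∫ x, X0 R w x * ψ x + ⟪X1 R G x, gradient ψ x⟫_ℝ +
      a * |X0 R v x| ^ α * X0 R v x * ψ x ∂(mu (Bl R)) = 0 := by
  have hm := mem_nl R α hα v hv
  obtain ⟨q, hq⟩ : ∃ q : Lp ℝ 2 (mu (HB R)), q =ᵐ[mu (HB R)] fun x => nl α (v x) :=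
    ⟨hm.toLp _, MemLp.coeFn_toLp hm⟩
  rw [split a α (X0 R w) (X0 R v) (X0 R q) (X1 R G) ψ (gradient ψ) (mem0 (Bl R) ψ hψ)
    (mem1 (Bl R) ψ hψ) (X_nl R α v q hq), adj0 R w ψ (mem0 (Bl R) ψ hψ),
    adj0 R q ψ (mem0 (Bl R) ψ hψ), adj1 R G (gradient ψ) (mem1 (Bl R) ψ hψ)]
  have e1 : ∫ x, ⟪G x, gradient ψ x - sg (gradient ψ (sg x))⟫_ℝ ∂(mu (HB R)) =
      ∫ x, ⟪G x, gradient (od ψ) x⟫_ℝ ∂(mu (HB R)) := by
    refine integral_congr_ae (Eventually.of_forall fun x => ?_)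
    show ⟪G x, gradient ψ x - sg (gradient ψ (sg x))⟫_ℝ = ⟪G x, gradient (od ψ) x⟫_ℝ
    rw [grad_od ψ (hψ.1.differentiable (by simp))]
  have hW : (- w - a • q : Lp ℝ 2 (mu (HB R))) =ᵐ[mu (HB R)] fun x => - w x - a * q x := by
    filter_upwards [Lp.coeFn_sub (- w) (a • q), Lp.coeFn_neg w, Lp.coeFn_smul a q] with x h1 h2 h3
    rw [h1, Pi.sub_apply, h2, h3, Pi.neg_apply, Pi.smul_apply, smul_eq_mul]
  have eW : ∀ φ : En 3 → ℝ, MemLp φ 2 (mu (HB R)) →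
      ∫ x, (- w - a • q : Lp ℝ 2 (mu (HB R))) x * φ x ∂(mu (HB R)) =
      - (∫ x, w x * φ x ∂(mu (HB R))) - a * ∫ x, q x * φ x ∂(mu (HB R)) := by
    intro φ hφ
    have i1 : Integrable (fun x => -(w x * φ x)) (mu (HB R)) := (int0 w φ hφ).neg
    have i2 : Integrable (fun x => a * (q x * φ x)) (mu (HB R)) := (int0 q φ hφ).const_mul a
    rw [← integral_const_mul, ← integral_neg, ← integral_sub i1 i2]
    refine integral_congr_ae ?_
    filter_upwards [hW] with x hx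
    rw [hx]
    ring
  have h2 := test_od cof R hR ψ hψ (- w - a • q) G (by
    intro φ hφ
    have h3 := h φ hφ
    rw [split a α w v q G φ (gradient φ) (mem0 (HB R) φ hφ) (mem1 (HB R) φ hφ) hq.symm] at h3
    rw [eW φ (mem0 (HB R) φ hφ)]
    linarith)
  rw [eW (od ψ) (mem0 (HB R) (od ψ) (tst_od R ψ hψ))] at h2
  rw [e1, h2]
  ring

/-- row REF -/
theorem ref (cof : CofStmt) : RefStmt := by
  rintro R a α hR hα ⟨u, v, w, G, hs, c, C, hc, hen⟩
  refine ⟨fun t => X0 R (u t), fun t => X0 R (v t), fun t => X0 R (w t), fun t => X1 R (G t),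
    ?_, 2 * c, 2 * C, by positivity, ?_⟩
  · constructor
    · intro t ht
      exact X_h10 R (u t) (G t) (hs.dom t ht)
    · intro t ht
      obtain ⟨G', hG'⟩ := hs.vdom t ht
      exact ⟨X1 R G', X_h10 R (v t) G' hG'⟩
    · intro t ht
      exact (X0 R).hasFDerivAt.comp_hasDerivAt t (hs.du t ht)
    · intro t ht
      exact (X0 R).hasFDerivAt.comp_hasDerivAt t (hs.dv t ht)
    · exact (X1 R).continuous.comp_continuousOn hs.G_cont
    · exact (X0 R).continuous.comp_continuousOn hs.w_cont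
    · intro t ht
      exact X_bdd R (v t) (hs.v_bdd t ht)
    · intro t ht ψ hψ
      exact eq_ball cof R a α hR hα (w t) (v t) (G t) (hs.v_bdd t ht) (hs.eq t ht) ψ hψ
  · intro t ht
    obtain ⟨h1, h2⟩ := hen t ht
    rw [en_two]
    constructor
    · rw [mul_assoc]
      linarith
    · rw [mul_assoc]
      linarith

end

end Pool.Agent.BEB.H46
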