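import Pool.Agent.BEB.Stmts

/-!
# Squad BEB, row REF, part A: the reflection and the extension operators
-/

set_option autoImplicit false

namespace Pool.Agent.BEB.H46

open Set Filter Topology MeasureTheory
open scoped InnerProductSpace ENNReal
open Pool.Agent.BE01 Pool.Agent.BEB

noncomputable section

/-- the reflection -/
def sg : En 3 ≃ₗᵢ[ℝ] En 3 :=
  LinearIsometryEquiv.piLpCongrRight 2
    (fun i : Fin 3 => if i = 2 then LinearIsometryEquiv.neg ℝ else LinearIsometryEquiv.refl ℝ ℝ)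

theorem sg_two (x : En 3) : sg x 2 = - x 2 := by
  simp [sg]

theorem sg_zero (x : En 3) : sg x 0 = x 0 := by
  simp [sg]

theorem sg_one (x : En 3) : sg x 1 = x 1 := by
  simp [sg]

theorem sg_sg (x : En 3) : sg (sg x) = x := by
  ext i
  fin_cases i
  · show sg (sg x) 0 = x 0
    rw [sg_zero, sg_zero]
  · show sg (sg x) 1 = x 1
    rw [sg_one, sg_one]
  · show sg (sg x) 2 = x 2
    rw [sg_two, sg_two, neg_neg]

theorem sg_inner (x y : En 3) : ⟪sg x, y⟫_ℝ = ⟪x, sg y⟫_ℝ := by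
  have h := LinearIsometryEquiv.inner_map_map sg x (sg y)
  rw [sg_sg] at h
  exact h

theorem norm_sub_sg (x : En 3) : ‖x - sg x‖ = 2 * |x 2| := by
  rw [EuclideanSpace.norm_eq, Fin.sum_univ_three]
  have h0 : (x - sg x) 0 = 0 := by
    show x 0 - sg x 0 = 0
    rw [sg_zero, sub_self]
  have h1 : (x - sg x) 1 = 0 := by
    show x 1 - sg x 1 = 0
    rw [sg_one, sub_self]
  have h2 : (x - sg x) 2 = 2 * x 2 := by
    show x 2 - sg x 2 = 2 * x 2
    rw [sg_two]
    ring
  rw [h0, h1, h2]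
  simp only [norm_zero, ne_eq, OfNat.ofNat_ne_zero, not_false_eq_true, zero_pow, zero_add]
  rw [Real.sqrt_sq (norm_nonneg _), norm_mul]
  simp

/-- the ball -/
abbrev Bl (R : ℝ) : Set (En 3) := Metric.ball (0 : En 3) R

theorem HB_sub (R : ℝ) : HB R ⊆ Bl R := by
  intro x hx
  rw [Metric.mem_ball, dist_zero_right]
  exact hx.1

theorem isOpen_HB (R : ℝ) : IsOpen (HB R) := by
  unfold HB
  apply IsOpen.inter (s := {x : En 3 | ‖x‖ < R}) (t := {x : En 3 | 0 < x 2})
  · exact isOpen_lt continuous_norm continuous_const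
  · exact isOpen_lt continuous_const (by fun_prop)

theorem meas_HB (R : ℝ) : MeasurableSet (HB R) := (isOpen_HB R).measurableSet

theorem dom_HB (R : ℝ) (hR : 0 < R) : Dom (HB R) := by
  refine ⟨isOpen_HB R, Metric.isBounded_ball.subset (HB_sub R), ?_⟩
  refine ⟨EuclideanSpace.single 2 (R / 2), ?_, ?_⟩
  · rw [PiLp.norm_single, Real.norm_eq_abs, abs_of_pos (by linarith)]
    linarith
  · simp
    linarith

theorem res_HB (R : ℝ) : (mu (Bl R)).restrict (HB R) = mu (HB R) := by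
  unfold mu
  rw [Measure.restrict_restrict (meas_HB R), inter_eq_self_of_subset_left (HB_sub R)]

theorem mp_sg (R : ℝ) : MeasurePreserving sg (mu (Bl R)) (mu (Bl R)) := by
  have h := (LinearIsometryEquiv.measurePreserving sg).restrict_preimage
    (s := Bl R) Metric.isOpen_ball.measurableSet
  have e : sg ⁻¹' (Bl R) = Bl R := by
    ext x
    simp [Metric.mem_ball, dist_zero_right]
  rw [e] at h
  exact h

section ext
variable {E : Type} [NormedAddCommGroup E] [NormedSpace ℝ E]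

theorem mem_ind (R : ℝ) (f : Lp E 2 (mu (HB R))) :
    MemLp ((HB R).indicator f) 2 (mu (Bl R)) := by
  rw [memLp_indicator_iff_restrict (meas_HB R), res_HB]
  exact Lp.memLp f

/-- extension by zero -/
def e0 (R : ℝ) (f : Lp E 2 (mu (HB R))) : Lp E 2 (mu (Bl R)) := (mem_ind R f).toLp _

theorem e0_ae (R : ℝ) (f : Lp E 2 (mu (HB R))) :
    e0 R f =ᵐ[mu (Bl R)] (HB R).indicator f := MemLp.coeFn_toLp _

theorem ind_ae (R : ℝ) {f g : En 3 → E} (h : f =ᵐ[mu (HB R)] g) :
    (HB R).indicator f =ᵐ[mu (Bl R)] (HB R).indicator g := by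
  rw [← ae_eq_restrict_iff_indicator_ae_eq (meas_HB R), res_HB]
  exact h

/-- extension by zero as a linear isometry -/
def E0 (R : ℝ) : Lp E 2 (mu (HB R)) →ₗᵢ[ℝ] Lp E 2 (mu (Bl R)) where
  toFun := e0 R
  map_add' f g := by
    apply Lp.ext
    refine (e0_ae R _).trans ?_
    refine Filter.EventuallyEq.trans ?_ (Lp.coeFn_add _ _).symm
    refine (ind_ae R (Lp.coeFn_add f g)).trans ?_
    filter_upwards [e0_ae R f, e0_ae R g] with x h1 h2
    rw [Pi.add_apply, h1, h2]
    by_cases hx : x ∈ HB R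
    · simp [hx]
    · simp [hx]
  map_smul' c f := by
    apply Lp.ext
    refine (e0_ae R _).trans ?_
    refine Filter.EventuallyEq.trans ?_ (Lp.coeFn_smul _ _).symm
    refine (ind_ae R (Lp.coeFn_smul c f)).trans ?_
    filter_upwards [e0_ae R f] with x h1
    rw [Pi.smul_apply, h1]
    by_cases hx : x ∈ HB R
    · simp [hx]
    · simp [hx]
  norm_map' f := by
    show ‖e0 R f‖ = ‖f‖
    rw [Lp.norm_def, Lp.norm_def, eLpNorm_congr_ae (e0_ae R f),
      eLpNorm_indicator_eq_eLpNorm_restrict (meas_HB R), res_HB]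

/-- the odd extension -/
def X (R : ℝ) (T : E →L[ℝ] E) : Lp E 2 (mu (HB R)) →L[ℝ] Lp E 2 (mu (Bl R)) :=
  (E0 R).toContinuousLinearMap -
    ((T.compLpL 2 (mu (Bl R))).comp
      ((Lp.compMeasurePreservingₗᵢ ℝ sg (mp_sg R)).toContinuousLinearMap)).comp
      (E0 R).toContinuousLinearMap

theorem X_ae (R : ℝ) (T : E →L[ℝ] E) (f : Lp E 2 (mu (HB R))) :
    X R T f =ᵐ[mu (Bl R)] fun x =>
      (HB R).indicator f x - T ((HB R).indicator f (sg x)) := by
  have h1 : X R T f = e0 R f - T.compLp (Lp.compMeasurePreserving sg (mp_sg R) (e0 R f)) := rfl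
  rw [h1]
  filter_upwards [Lp.coeFn_sub (e0 R f)
      (T.compLp (Lp.compMeasurePreserving sg (mp_sg R) (e0 R f))),
    T.coeFn_compLp (Lp.compMeasurePreserving sg (mp_sg R) (e0 R f)),
    Lp.coeFn_compMeasurePreserving (e0 R f) (mp_sg R),
    e0_ae R f, (mp_sg R).quasiMeasurePreserving.ae_eq_comp (e0_ae R f)] with x h2 h3 h4 h5 h6
  rw [h2, Pi.sub_apply, h3, h4, h5, h6]
  rfl

end ext

end

end Pool.Agent.BEB.H46
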