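import Pool.Agent.Helper46_BEB.RefA

/-!
# Squad BEB, row REF, part B: test functions and the adjoint of the extension
-/

set_option autoImplicit false

namespace Pool.Agent.BEB.H46

open Set Filter Topology MeasureTheory
open scoped InnerProductSpace ENNReal
open Pool.Agent.BE01 Pool.Agent.BEB

noncomputable section

/-- the odd part -/
def od (ψ : En 3 → ℝ) (x : En 3) : ℝ := ψ x - ψ (sg x)

/-- the reflection as a continuous linear map -/
abbrev SG : En 3 →L[ℝ] En 3 := sg.toLinearIsometry.toContinuousLinearMap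

theorem grad_comp (ψ : En 3 → ℝ) (x : En 3) (h : DifferentiableAt ℝ ψ (sg x)) :
    HasGradientAt (fun y => ψ (sg y)) (sg (gradient ψ (sg x))) x := by
  rw [hasGradientAt_iff_hasFDerivAt]
  have h1 := h.hasGradientAt
  rw [hasGradientAt_iff_hasFDerivAt] at h1
  have h2 : HasFDerivAt (fun y => sg y) SG x := SG.hasFDerivAt
  have h3 := h1.comp x h2
  have e : ((InnerProductSpace.toDual ℝ (En 3)) (gradient ψ (sg x))).comp SG =
      (InnerProductSpace.toDual ℝ (En 3)) (sg (gradient ψ (sg x))) := by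
    ext y
    simp only [ContinuousLinearMap.comp_apply, InnerProductSpace.toDual_apply_apply]
    exact (sg_inner _ _).symm
  rw [e] at h3
  exact h3

theorem grad_od (ψ : En 3 → ℝ) (hψ : Differentiable ℝ ψ) (x : En 3) :
    gradient (od ψ) x = gradient ψ x - sg (gradient ψ (sg x)) := by
  have h1 := (hψ x).hasGradientAt
  have h2 := grad_comp ψ x (hψ (sg x))
  rw [hasGradientAt_iff_hasFDerivAt] at h1 h2
  have h3 := h1.sub h2
  rw [← map_sub] at h3
  have h4 : HasGradientAt (od ψ) (gradient ψ x - sg (gradient ψ (sg x))) x := by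
    rw [hasGradientAt_iff_hasFDerivAt]
    exact h3
  exact h4.gradient

theorem tst_od (R : ℝ) (ψ : En 3 → ℝ) (hψ : Tst (Bl R) ψ) : Tst (Bl R) (od ψ) := by
  obtain ⟨h1, h2, h3⟩ := hψ
  have hK : IsCompact (tsupport ψ ∪ sg ⁻¹' tsupport ψ) := by
    apply IsCompact.union h2
    exact sg.toHomeomorph.isCompact_preimage.mpr h2
  have hsub : Function.support (od ψ) ⊆ tsupport ψ ∪ sg ⁻¹' tsupport ψ := by
    intro x hx
    by_contra hc
    rw [mem_union, not_or] at hc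
    apply hx
    unfold od
    rw [image_eq_zero_of_notMem_tsupport hc.1, image_eq_zero_of_notMem_tsupport hc.2, sub_zero]
  refine ⟨?_, ?_, ?_⟩
  · exact h1.sub (h1.comp SG.contDiff)
  · exact HasCompactSupport.of_support_subset_isCompact hK hsub
  · refine (closure_minimal hsub hK.isClosed).trans ?_
    rintro x (hx | hx)
    · exact h3 hx
    · have := h3 hx
      rw [Metric.mem_ball, dist_zero_right] at this ⊢
      rwa [LinearIsometryEquiv.norm_map] at this

theorem ind_tst (R : ℝ) (ψ : En 3 → ℝ) (hψ : Tst (HB R) ψ) : (HB R).indicator ψ = ψ := by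
  ext x
  by_cases hx : x ∈ HB R
  · rw [indicator_of_mem hx]
  · rw [indicator_of_notMem hx]
    exact (image_eq_zero_of_notMem_tsupport fun h => hx (hψ.2.2 h)).symm

theorem ind_grad (R : ℝ) (ψ : En 3 → ℝ) (hψ : Tst (HB R) ψ) :
    (HB R).indicator (gradient ψ) = gradient ψ := by
  ext x : 1
  by_cases hx : x ∈ HB R
  · rw [indicator_of_mem hx]
  · rw [indicator_of_notMem hx]
    have h1 : x ∉ tsupport ψ := fun h => hx (hψ.2.2 h)
    have h2 : fderiv ℝ ψ x = 0 := by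
      have h3 := support_fderiv_subset ℝ (f := ψ)
      by_contra hc
      exact h1 (h3 hc)
    unfold gradient
    rw [h2, map_zero]

theorem tst_mono {Ω Ω' : Set (En 3)} (h : Ω ⊆ Ω') (ψ : En 3 → ℝ) (hψ : Tst Ω ψ) : Tst Ω' ψ :=
  ⟨hψ.1, hψ.2.1, hψ.2.2.trans h⟩

/-- scalar extension -/
abbrev X0 (R : ℝ) : Lp ℝ 2 (mu (HB R)) →L[ℝ] Lp ℝ 2 (mu (Bl R)) :=
  X R (ContinuousLinearMap.id ℝ ℝ)

/-- extension of vector fields -/
abbrev X1 (R : ℝ) : Lp (En 3) 2 (mu (HB R)) →L[ℝ] Lp (En 3) 2 (mu (Bl R)) := X R SG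

theorem X_h10 (R : ℝ) (f : Lp ℝ 2 (mu (HB R))) (G : Lp (En 3) 2 (mu (HB R)))
    (h : (f, G) ∈ H10 (HB R)) : (X0 R f, X1 R G) ∈ H10 (Bl R) := by
  obtain ⟨F, hF⟩ : ∃ F : Lp ℝ 2 (mu (HB R)) × Lp (En 3) 2 (mu (HB R)) →
      Lp ℝ 2 (mu (Bl R)) × Lp (En 3) 2 (mu (Bl R)), F = fun P => (X0 R P.1, X1 R P.2) := ⟨_, rfl⟩
  have hc : Continuous F := by
    rw [hF]
    exact ((X0 R).continuous.comp continuous_fst).prodMk ((X1 R).continuous.comp continuous_snd)
  have hcl : IsClosed (F ⁻¹' (H10 (Bl R))) := IsClosed.preimage hc isClosed_closure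
  have hsub : {P : Lp ℝ 2 (mu (HB R)) × Lp (En 3) 2 (mu (HB R)) |
      ∃ ψ, Tst (HB R) ψ ∧ P.1 =ᵐ[mu (HB R)] ψ ∧ P.2 =ᵐ[mu (HB R)] gradient ψ} ⊆
      F ⁻¹' (H10 (Bl R)) := by
    rintro ⟨p1, p2⟩ ⟨ψ, hψ, h1, h2⟩
    rw [mem_preimage, hF]
    apply subset_closure
    refine ⟨od ψ, tst_od R ψ (tst_mono (HB_sub R) ψ hψ), ?_, ?_⟩
    · have h3 := ind_ae R h1
      filter_upwards [X_ae R (ContinuousLinearMap.id ℝ ℝ) p1, h3,
        (mp_sg R).quasiMeasurePreserving.ae_eq_comp h3] with x h4 h5 h6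
      rw [Function.comp_apply, Function.comp_apply] at h6
      rw [h5, h6, ind_tst R ψ hψ] at h4
      exact h4
    · have h3 := ind_ae R h2
      filter_upwards [X_ae R SG p2, h3,
        (mp_sg R).quasiMeasurePreserving.ae_eq_comp h3] with x h4 h5 h6
      rw [Function.comp_apply, Function.comp_apply] at h6
      rw [h5, h6, ind_grad R ψ hψ] at h4
      rw [grad_od ψ (hψ.1.differentiable (by simp))]
      exact h4
  have h1 := closure_minimal hsub hcl h
  rw [mem_preimage, hF] at h1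
  exact h1

theorem int_ind (R : ℝ) (Φ : En 3 → ℝ) :
    ∫ x, (HB R).indicator Φ x ∂(mu (Bl R)) = ∫ x, Φ x ∂(mu (HB R)) := by
  rw [integral_indicator (meas_HB R), res_HB]

section adj
variable {E : Type} [NormedAddCommGroup E] [InnerProductSpace ℝ E]

theorem X_adj (R : ℝ) (T : E →L[ℝ] E) (hT : ∀ a b, ⟪T a, b⟫_ℝ = ⟪a, T b⟫_ℝ)
    (f : Lp E 2 (mu (HB R))) (g : Lp E 2 (mu (Bl R))) :
    ∫ x, ⟪X R T f x, g x⟫_ℝ ∂(mu (Bl R)) =
      ∫ x, ⟪f x, g x - T (g (sg x))⟫_ℝ ∂(mu (HB R)) := by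
  have hg' : MemLp (fun x => g (sg x)) 2 (mu (Bl R)) :=
    (Lp.memLp g).comp_measurePreserving (mp_sg R)
  have i1 : Integrable (fun x => ⟪(HB R).indicator f x, g x⟫_ℝ) (mu (Bl R)) := by
    have := L2.integrable_inner (𝕜 := ℝ) (e0 R f) g
    refine this.congr ?_
    filter_upwards [e0_ae R f] with x hx
    rw [hx]
  have i2 : Integrable (fun x => ⟪(HB R).indicator f x, T (g (sg x))⟫_ℝ) (mu (Bl R)) := by
    have h1 := (T.comp_memLp' hg')
    have := L2.integrable_inner (𝕜 := ℝ) (e0 R f) (h1.toLp _)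
    refine this.congr ?_
    filter_upwards [e0_ae R f, MemLp.coeFn_toLp h1] with x hx hy
    rw [hx, hy]
    rfl
  have e2 : ∫ x, ⟪T ((HB R).indicator f (sg x)), g x⟫_ℝ ∂(mu (Bl R)) =
      ∫ x, ⟪(HB R).indicator f x, T (g (sg x))⟫_ℝ ∂(mu (Bl R)) := by
    have h1 := (mp_sg R).integral_comp sg.toHomeomorph.measurableEmbedding
      (fun x => ⟪(HB R).indicator f x, T (g (sg x))⟫_ℝ)
    rw [← h1]
    refine integral_congr_ae (Eventually.of_forall fun x => ?_)
    show ⟪T ((HB R).indicator f (sg x)), g x⟫_ℝ =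
      ⟪(HB R).indicator f (sg x), T (g (sg (sg x)))⟫_ℝ
    rw [sg_sg, hT]
  have i3 : Integrable (fun x => ⟪T ((HB R).indicator f (sg x)), g x⟫_ℝ) (mu (Bl R)) := by
    have h1 := ((mp_sg R).integrable_comp_emb sg.toHomeomorph.measurableEmbedding).mpr i2
    refine h1.congr (Eventually.of_forall fun x => ?_)
    show ⟪(HB R).indicator f (sg x), T (g (sg (sg x)))⟫_ℝ = ⟪T ((HB R).indicator f (sg x)), g x⟫_ℝ
    rw [sg_sg, hT]
  have e3 : ∫ x, ⟪X R T f x, g x⟫_ℝ ∂(mu (Bl R)) =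
      ∫ x, ⟪(HB R).indicator f x, g x⟫_ℝ ∂(mu (Bl R)) -
        ∫ x, ⟪T ((HB R).indicator f (sg x)), g x⟫_ℝ ∂(mu (Bl R)) := by
    rw [← integral_sub i1 i3]
    refine integral_congr_ae ?_
    filter_upwards [X_ae R T f] with x hx
    rw [hx, inner_sub_left]
  rw [e3, e2, ← integral_sub i1 i2, ← int_ind]
  refine integral_congr_ae (Eventually.of_forall fun x => ?_)
  by_cases hx : x ∈ HB R
  · simp only [indicator_of_mem hx, inner_sub_right]
  · simp only [indicator_of_notMem hx, inner_zero_left, sub_zero]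

end adj

end

end Pool.Agent.BEB.H46
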